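import Mathlib

set_option autoImplicit false

namespace Pool.Agent.Results.MP_6c91b3_co.Cex

open SimpleGraph Finset

/-- Exactly half of the vertices have degree 2 and half have degree 3. -/
def D23 {n : ℕ} (G : SimpleGraph (Fin n)) : Prop :=
  2 * {v | (G.neighborSet v).ncard = 2}.ncard = n ∧ 2 * {v | (G.neighborSet v).ncard = 3}.ncard = n

/-- A smallest graph of girth `g` in the class. -/
def Extremal (g : ℕ) {n : ℕ} (G : SimpleGraph (Fin n)) : Prop :=
  D23 G ∧ G.girth = g ∧ ∀ (m : ℕ) (H : SimpleGraph (Fin m)), D23 H → H.girth = g → n ≤ m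

theorem conv {n : ℕ} (G : SimpleGraph (Fin n)) [DecidableRel G.Adj] (k : ℕ) :
    {v | (G.neighborSet v).ncard = k}.ncard = #{v | G.degree v = k} := by
  rw [← Set.ncard_coe_finset]
  simp [← coe_neighborFinset]

def G : SimpleGraph (Fin 8) := fromRel fun x y => (x, y) ∈ ({(1, 2), (0, 3), (3, 4), (2, 5), (4, 5),
  (1, 6), (4, 6), (0, 7), (5, 7), (6, 7)} : Finset (Fin 8 × Fin 8))

instance : DecidableRel G.Adj := fun _ _ => inferInstanceAs (Decidable (_ ∧ _))

theorem gG : G.girth = 4 := by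
  let w : G.Walk 4 4 := .cons (v := 5) (by decide) (.cons (v := 7) (by decide)
    (.cons (v := 6) (by decide) (.cons (v := 4) (by decide) .nil)))
  have hw : w.IsCycle := by
    rw [Walk.isCycle_def, Walk.isTrail_def]
    decide
  have h1 : G.girth ≤ 4 := girth_le_length hw
  have h2 : ¬ G.IsAcyclic := fun h => h w hw
  have h3 := three_le_girth h2
  obtain ⟨a, c, hc, e⟩ := exists_girth_eq_length.2 h2
  by_contra h
  obtain ⟨s, hs⟩ := is3Clique_iff_exists_cycle_length_three.2 ⟨a, c, hc, by omega⟩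
  obtain ⟨x, y, z, p, q, r, -⟩ := is3Clique_iff.1 hs
  revert x y z
  decide +kernel

theorem low (m : ℕ) (H : SimpleGraph (Fin m)) (h : D23 H) (hg : H.girth = 4) : 8 ≤ m := by
  classical
  obtain ⟨h2, h3⟩ := h
  rw [conv] at h2 h3
  have hd : Disjoint ({v | H.degree v = 2} : Finset (Fin m))
      ({v | H.degree v = 3} : Finset (Fin m)) :=
    disjoint_filter.2 fun v _ a b => by omega
  have hu : ({v | H.degree v = 2} : Finset (Fin m)) ∪
      ({v | H.degree v = 3} : Finset (Fin m)) = univ :=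
    eq_univ_of_card _ (by rw [card_union_of_disjoint hd, Fintype.card_fin]; omega)
  have hs := H.sum_degrees_eq_twice_card_edges
  rw [← hu, sum_union hd, sum_congr rfl fun v hv => (mem_filter.1 hv).2,
    sum_congr rfl fun v hv => (mem_filter.1 hv).2] at hs
  simp only [sum_const, smul_eq_mul] at hs
  by_contra hc
  obtain rfl | rfl : m = 0 ∨ m = 4 := by omega
  · rw [girth_eq_zero.2 fun v => v.elim0] at hg
    omega
  · obtain ⟨a, ha, b, hb, ab⟩ := one_lt_card.1 (by omega : 1 < #{v | H.degree v = 3})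
    have k : ∀ a, H.degree a = 3 → ∀ b, a ≠ b → H.Adj a b := fun a ha b ab => by
      have : H.neighborFinset a = univ.erase a := eq_of_subset_of_card_le
        (fun x hx => mem_erase.2 ⟨((mem_neighborFinset _ _ _).1 hx).ne', mem_univ _⟩)
        (by rw [card_erase_of_mem (mem_univ _), card_neighborFinset_eq_degree, ha]; simp)
      exact (mem_neighborFinset _ _ _).1 (this.ge (mem_erase.2 ⟨ab.symm, mem_univ _⟩))
    obtain ⟨c, ac, bc⟩ : ∃ c, a ≠ c ∧ b ≠ c :=
      (by decide : ∀ a b : Fin 4, ∃ c, a ≠ c ∧ b ≠ c) a b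
    obtain ⟨u, w, hw, e⟩ := is3Clique_iff_exists_cycle_length_three.1 ⟨_, is3Clique_triple_iff.2
      ⟨k a (mem_filter.1 ha).2 b ab, k a (mem_filter.1 ha).2 c ac, k b (mem_filter.1 hb).2 c bc⟩⟩
    have := girth_le_length hw
    omega

theorem result : ∃ (g n : ℕ) (G : SimpleGraph (Fin n)), 3 ≤ g ∧ Extremal g G ∧
    ∃ u v, G.Adj u v ∧ (G.neighborSet u).ncard = 2 ∧ (G.neighborSet v).ncard = 2 := by
  refine ⟨4, 8, G, by norm_num, ⟨⟨?_, ?_⟩, gG, low⟩, 1, 2, by decide, ?_, ?_⟩
  · rw [conv]; decide +kernel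
  · rw [conv]; decide +kernel
  · rw [← coe_neighborFinset, Set.ncard_coe_finset]; decide +kernel
  · rw [← coe_neighborFinset, Set.ncard_coe_finset]; decide +kernel

end Pool.Agent.Results.MP_6c91b3_co.Cex
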